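import Pool.Agent.MP_1ba41f_an.S2.W.FM.Spec

/-! The transversality and the symmetry condition, from the first integral. -/

noncomputable section
open Set Complex Filter Topology

namespace Pool.Agent.MP_1ba41f_an.S2.W.FM

open Pool.Agent.MP_1ba41f_an.S2.FM

namespace Cov

theorem lin_eq (l : C2 →L[ℂ] ℂ) (w : C2) : l w = w.1 * l (1, 0) + w.2 * l (0, 1) := by
  have : w = w.1 • ((1, 0) : C2) + w.2 • ((0, 1) : C2) := by ext <;> simp
  conv_lhs => rw [this]
  rw [map_add, map_smul, map_smul, smul_eq_mul, smul_eq_mul]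

/-- two vectors in the kernel of a non-zero covector are parallel -/
theorem det_ker (l : C2 →L[ℂ] ℂ) {a b c : C2} (ha : l a = 0) (hb : l b = 0) (hc : l c ≠ 0) :
    det2 a b = 0 := by
  refine mul_right_cancel₀ hc ?_
  rw [lin_eq] at ha hb
  rw [lin_eq l c, det2]
  linear_combination (c.1 * b.2 - c.2 * b.1) * ha - (c.1 * a.2 - c.2 * a.1) * hb

theorem det_inj (A B : C2 →L[ℂ] C2) (h : ∀ w, B (A w) = w) {u v : C2} (huv : det2 u v ≠ 0) :
    det2 (A u) (A v) ≠ 0 := fun h0 => huv <| by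
  have h1 : ∀ a b : ℂ, a • A u + b • A v = 0 → a * det2 u v = 0 ∧ b * det2 u v = 0 :=
    fun a b e => by
      have h2 := congrArg B e
      rw [map_add, map_smul, map_smul, h, h, map_zero] at h2
      have h3 := congrArg Prod.fst h2
      have h4 := congrArg Prod.snd h2
      simp only [Prod.fst_add, Prod.snd_add, Prod.smul_fst, Prod.smul_snd, smul_eq_mul,
        Prod.fst_zero, Prod.snd_zero] at h3 h4
      rw [det2]
      exact ⟨by linear_combination v.2 * h3 - v.1 * h4, by linear_combination u.1 * h4 - u.2 * h3⟩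
  rw [det2] at h0
  by_contra hc
  have h2 := h1 (A v).2 (-(A u).2) (by
    ext
    · simp; linear_combination h0
    · simp; ring)
  have h3 := h1 (A v).1 (-(A u).1) (by
    ext
    · simp; ring
    · simp; linear_combination -h0)
  have h4 : A u = 0 := Prod.ext (neg_eq_zero.1 ((mul_eq_zero.1 h3.2).resolve_right hc))
    (neg_eq_zero.1 ((mul_eq_zero.1 h2.2).resolve_right hc))
  have h5 := h u
  rw [h4, map_zero] at h5
  exact hc (by rw [← h5]; simp [det2])

/-- the reflection as a linear map -/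
def refl2 : C2 →L[ℂ] C2 := (ContinuousLinearMap.fst ℂ ℂ ℂ).prod (-ContinuousLinearMap.snd ℂ ℂ ℂ)

theorem refl2_apply (w : C2) : refl2 w = Gm w := rfl

theorem qD_diff [Lam] (κ : ℂ) {z : C2} (h : qN z ≠ 0) : DifferentiableAt ℂ (qD κ) z := by
  have h1 : DifferentiableAt ℂ qN z := by unfold qN; fun_prop
  unfold qD qG qG2 qX
  fun_prop (disch := exact h)

theorem slice {E : Type} [NormedAddCommGroup E] [NormedSpace ℂ E] {U : Set (ℂ × C2)}
    (hU : IsOpen U) {f : ℂ × C2 → E} (hf : DifferentiableOn ℂ f U) {κ : ℂ} {m : C2}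
    (h : (κ, m) ∈ U) : DifferentiableAt ℂ (fun m => f (κ, m)) m :=
  (hf.differentiableAt (hU.mem_nhds h)).comp m (by fun_prop)

theorem near {U : Set (ℂ × C2)} (hU : IsOpen U) {κ : ℂ} {m : C2} (h : (κ, m) ∈ U) :
    ∀ᶠ m' in 𝓝 m, (κ, m') ∈ U :=
  (Continuous.prodMk_right κ).continuousAt.eventually (hU.mem_nhds h)

end Cov

open Cov in
theorem covS [Lam] (hQ : AlgQStmt) (hM : AlgMStmt) (hA : AnaStmt) : CovStmt := by
  intro κ m hm hz
  obtain ⟨⟨h1, h2⟩, ⟨h3, h4, -⟩, -⟩ := hA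
  have hP : ∀ m, OkM κ m → DifferentiableAt ℂ (PP 1 κ) m := fun m hm =>
    slice h1 (h2 1 (Or.inl rfl)).1 hm
  have hq := (hQ 1 κ (Or.inl rfl)).1
  have hD : ∀ m, OkM κ m → ∀ w,
      fderiv ℂ (qD κ) (PP 1 κ m) (fderiv ℂ (PP 1 κ) m w) = fderiv ℂ (bD κ) m w := fun m hm w => by
    have e : (qD κ ∘ PP 1 κ) =ᶠ[𝓝 m] bD κ := (near h1 hm).mono fun m' h => (hq m' h).2.2.2.2.2.1
    rw [← e.fderiv_eq, fderiv_comp m (qD_diff κ (hq m hm).1) (hP m hm)]
    rfl
  refine ⟨fun u v huv => det_inj _ (fderiv ℂ (QQ 1 κ) (PP 1 κ m)) (fun w => ?_) huv,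
    fun m' u u' v hm' e h5 h6 h7 => ?_⟩
  · have e : (QQ 1 κ ∘ PP 1 κ) =ᶠ[𝓝 m] id := (near h1 hm).mono fun m' h => (hq m' h).2.2.2.2.2.2.2
    have h5 := e.fderiv_eq (𝕜 := ℂ)
    rw [fderiv_comp m (slice h3 (h4 1) hz) (hP m hm), fderiv_id] at h5
    exact congr($h5 w)
  · have e' : Gm (PP 1 κ m') = PP 1 κ m := by rw [e]; simp [Gm]
    have h8 : ∀ w, fderiv ℂ (qD κ) (PP 1 κ m') w = fderiv ℂ (qD κ) (PP 1 κ m) (Gm w) := fun w => by
      have h9 : qD κ ∘ refl2 = qD κ := funext fun z => (hM.1 1 κ z).2.2.1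
      have h10 : DifferentiableAt ℂ (qD κ) (refl2 (PP 1 κ m')) := by
        rw [refl2_apply, e']; exact qD_diff κ (hq m hm).1
      conv_lhs => rw [← h9, fderiv_comp _ h10 refl2.differentiableAt, refl2.fderiv, refl2_apply, e']
      rfl
    refine det_ker (fderiv ℂ (qD κ) (PP 1 κ m)) ?_ ((hD m hm v).trans h7)
      (c := fderiv ℂ (PP 1 κ) m u) (by rwa [hD m hm])
    rw [map_sub, ← h8, hD m hm, hD m' hm', h6, sub_self]

end Pool.Agent.MP_1ba41f_an.S2.W.FM
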