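import Pool.Agent.MP_1ba41f_an.S2.W.FM.Spec

/-! The circles with `M` close to `1` are close to the resonant ones. -/

noncomputable section
open Set Complex

namespace Pool.Agent.MP_1ba41f_an.S2.W.FM

open Pool.Agent.MP_1ba41f_an.S2.FM

variable [Lam]

namespace Near

theorem fx_mod (M H φ : ℝ) : fx M H (toIcoMod Real.two_pi_pos 0 φ) = fx M H φ := by
  have e : toIcoMod Real.two_pi_pos 0 φ =
      φ - (toIcoDiv Real.two_pi_pos 0 φ : ℤ) * (2 * Real.pi) := by
    rw [toIcoMod, zsmul_eq_mul]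
  simp only [fx, e, Real.cos_sub_int_mul_two_pi, Real.sin_sub_int_mul_two_pi]

end Near

theorem nearS (h0 : Fam0Stmt) : NearStmt := by
  intro d hd
  have hl := dl_pos
  let K : Set (ℝ × ℝ × ℝ) := Icc (1 - dl) 1 ×ˢ Icc 0 He ×ˢ Icc 0 (2 * Real.pi)
  have hK : IsCompact K := isCompact_Icc.prod (isCompact_Icc.prod isCompact_Icc)
  have hc : Continuous fun y : ℝ × ℝ × ℝ => (((y.1 : ℝ) : ℂ), r2c y.2) := by
    unfold r2c
    fun_prop
  have h1 : ContinuousOn (fun x : ℝ × ℝ × ℝ =>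
      (((fK x.1 x.2.1 : ℝ) : ℂ), r2c (fx x.1 x.2.1 x.2.2))) K :=
    hc.comp_continuousOn (h0.1.mono (prod_mono Subset.rfl (prod_mono Subset.rfl (subset_univ _))))
  obtain ⟨ε, hε, h2⟩ := Metric.uniformContinuousOn_iff.1 (hK.uniformContinuousOn_of_continuous h1)
    d hd
  refine ⟨min (ε / 2) (min d dl), by positivity, (min_le_right _ _).trans (min_le_left _ _),
    (min_le_right _ _).trans (min_le_right _ _), fun M hM H hH φ => ?_⟩
  have a1 : min (ε / 2) (min d dl) ≤ ε / 2 := min_le_left _ _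
  have a2 : min (ε / 2) (min d dl) ≤ dl := (min_le_right _ _).trans (min_le_right _ _)
  have hφ : toIcoMod Real.two_pi_pos 0 φ ∈ Icc 0 (2 * Real.pi) :=
    Ico_subset_Icc_self (toIcoMod_mem_Ico' Real.two_pi_pos φ)
  have := h2 (M, H, toIcoMod Real.two_pi_pos 0 φ) ⟨⟨by linarith [hM.1], hM.2⟩, hH, hφ⟩
    (1, H, toIcoMod Real.two_pi_pos 0 φ) ⟨⟨by linarith, le_rfl⟩, hH, hφ⟩ (by
      rw [Prod.dist_eq, dist_self, Real.dist_eq, max_lt_iff, abs_lt]
      exact ⟨⟨by linarith [hM.1], by linarith [hM.2]⟩, hε⟩)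
  simpa only [Near.fx_mod] using this

end Pool.Agent.MP_1ba41f_an.S2.W.FM
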