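import Mathlib
import Pool.Agent.MP_1ba41f_an.S2.FM.Inv
import Pool.Agent.MP_1ba41f_an.S2.W.FM.MainB
import Pool.Agent.MP_1ba41f_an.S2.W.FM.Strip
import Pool.Agent.MP_1ba41f_an.S2.W.FM.Point
import Pool.Agent.MP_1ba41f_an.S2.W.FM.Ode
import Pool.Agent.MP_1ba41f_an.S2.W.FM.Chart
import Pool.Agent.MP_1ba41f_an.S2.W.FM.Grad
import Pool.Agent.MP_1ba41f_an.S2.W.FM.Cov
import Pool.Agent.MP_1ba41f_an.S2.W.FM.Near

/-! The family of circles in the angle in which the return map is a rotation. -/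

namespace Pool.Agent.MP_1ba41f_an.S2.W.FM

open Pool.Agent.MP_1ba41f_an.S2.FM

variable [Lam]

theorem famS (hQ : AlgQStmt) (hM : AlgMStmt) (hA : AnaStmt) (hB : BaseStmt) (h0 : Fam0Stmt) :
    FamStmt :=
  famOf invS (stripS h0) (pointS h0) (odeS h0) (chartS h0) (gradS h0) (covS hQ hM hA) (nearS h0)
    hM hA hB h0

end Pool.Agent.MP_1ba41f_an.S2.W.FM
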